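import Pool.Agent.MP_d17781_co.NoPart
import Pool.Agent.MP_d17781_co.Conn

set_option autoImplicit false

namespace Pool.Agent.Results.MP_d17781_co.Counterexample

/-- A 105-connected graph on 1836 vertices whose vertex set has no partition into two parts that
both induce 52-connected subgraphs. -/
theorem result :
    ∃ (V : Type) (_ : Fintype V) (_ : DecidableEq V) (G : SimpleGraph V),
      Fintype.card V = 1836 ∧
      (∀ X : Finset V, X.card < 105 →
        (G.induce ((Finset.univ \ X : Finset V) : Set V)).Connected) ∧
      ∀ A B : Finset V, Disjoint A B → A ∪ B = Finset.univ →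
        ¬ ((52 < A.card ∧ ∀ X : Finset V, X ⊆ A → X.card < 52 →
            (G.induce ((A \ X : Finset V) : Set V)).Connected) ∧
          (52 < B.card ∧ ∀ X : Finset V, X ⊆ B → X.card < 52 →
            (G.induce ((B \ X : Finset V) : Set V)).Connected)) :=
  ⟨Pool.Agent.MP_d17781_co.Vx, inferInstance, inferInstance, Pool.Agent.MP_d17781_co.gr, by simp,
    fun _ hX => Pool.Agent.MP_d17781_co.gr_connected hX,
    fun _ _ hd hu h => Pool.Agent.MP_d17781_co.no_partition hd hu h.1 h.2⟩

end Pool.Agent.Results.MP_d17781_co.Counterexample
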