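import Pool.Agent.MP_d17781_co.SqM

namespace Pool.Agent.Results.MP_d17781_co.SqrtGap

/-- For all large `s ≤ t ≤ 1.3 s` some `κ`-connected graph with `κ ≥ s + t + c √s` has no
partition into an `s`-connected and a `t`-connected part. -/
theorem result : ∃ c : ℝ, 0 < c ∧ ∃ s₀ : ℕ, ∀ s t : ℕ, s₀ ≤ s → s ≤ t → 10 * t ≤ 13 * s →
    ∃ κ : ℕ, (s : ℝ) + t + c * √(s : ℝ) ≤ κ ∧
      ∃ (V : Type) (_ : Fintype V) (_ : DecidableEq V) (G : SimpleGraph V),
        (κ < Fintype.card V ∧ ∀ X : Finset V, X.card < κ →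
          (G.induce ((Finset.univ \ X : Finset V) : Set V)).Connected) ∧
        ∀ A B : Finset V, Disjoint A B → A ∪ B = Finset.univ →
          ¬ ((s < A.card ∧ ∀ X : Finset V, X ⊆ A → X.card < s →
              (G.induce ((A \ X : Finset V) : Set V)).Connected) ∧
            (t < B.card ∧ ∀ X : Finset V, X ⊆ B → X.card < t →
              (G.induce ((B \ X : Finset V) : Set V)).Connected)) := by
  obtain ⟨K, hK, H⟩ := Pool.Agent.MP_d17781_co.Sq.main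
  have k0 : (0 : ℝ) < √(K : ℝ) := Real.sqrt_pos.2 (by exact_mod_cast hK)
  refine ⟨1 / (2 * √(K : ℝ)), by positivity, 16 * K, fun s t h0 h1 h2 => ?_⟩
  obtain ⟨y, hy⟩ : ∃ y, y = 1 / (2 * √(K : ℝ)) * √(s : ℝ) := ⟨_, rfl⟩
  have a1 : (K : ℝ) * (2 * y) ^ 2 = s := by
    rw [hy, mul_pow, mul_pow, div_pow, mul_pow, Real.sq_sqrt (Nat.cast_nonneg _),
      Real.sq_sqrt (Nat.cast_nonneg _)]
    field_simp
  have y0 : 0 ≤ y := by rw [hy]; positivity
  have k1 : (0 : ℝ) < K := by exact_mod_cast hK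
  have a2 : 2 ≤ y := by
    have : (16 : ℝ) * K ≤ s := by exact_mod_cast h0
    have : (K : ℝ) * 2 ^ 2 ≤ K * y ^ 2 := by linarith
    exact (pow_le_pow_iff_left₀ zero_le_two y0 two_ne_zero).1 (le_of_mul_le_mul_left this k1)
  have a3 := Nat.ceil_lt_add_one y0
  obtain ⟨W, i1, i2, G, b1, b2, b3⟩ := H s t ⌈y⌉₊ h1 h2 (by
    have : (K : ℝ) * (⌈y⌉₊ + 1) ^ 2 ≤ s := by
      rw [← a1]
      gcongr
      linarith
    exact_mod_cast this)
  refine ⟨s + t + ⌈y⌉₊, ?_, W, i1, i2, G, ⟨b1, b2⟩, b3⟩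
  rw [← hy]
  push_cast
  linarith [Nat.le_ceil y]

end Pool.Agent.Results.MP_d17781_co.SqrtGap
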